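import Pool.Agent.Y921.PX.Main
import Pool.Agent.Y921.FE.Mat
import Pool.Agent.Y921.SR.Fin

/-!
# Matrices of `p`-adic logarithms: tuples and windows
-/

set_option autoImplicit false

open Module

namespace Pool.Agent.Y921.PX

open Pool.Agent.Y916.Om Pool.Agent.Y921.PW
open Pool.Agent.Y921.SR (ZeroProp Mt extend)
open Pool.Agent.Y921.FE (Good good_of D exists_span)

/-- **Tuples, number fields.** The property `Q` holds as soon as there is no relation of degree at most `n₀`. -/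
theorem tuples_of (k d m n₀ : ℕ) : ∃ c : ℝ, 0 < c ∧ ∃ C : ℝ, 0 ≤ C ∧ ∀ (p : ℕ) [Fact p.Prime] (A : Type)
    [NormedField A] [NormedAlgebra ℚ_[p] A] [CharZero A] (L : A → A), Iw p L →
    ∀ K : IntermediateField ℚ A, FiniteDimensional ℚ K → finrank ℚ K ≤ d →
    ∀ V : Submodule K A, Module.Finite K V → finrank K V ≤ m → ∀ Q : (Fin k → A) → Prop,
    (∀ l : Fin k → A, ¬ Rel n₀ (V1 K V ^ n₀) l → Q l) → ∀ T : ℕ, 1 ≤ T →
      ∃ B : Finset (Fin k → ℕ), (B.card : ℝ) ≤ C * p * (T : ℝ) ^ ((k : ℝ) - c) ∧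
        ∀ n : Fin k → ℕ, (∀ i, 1 ≤ n i ∧ n i ≤ T) → n ∉ B → Q (fun i => L (n i : A)) := by
  classical
  obtain ⟨c, hc, C, hC, h⟩ := ptup k n₀ ((d * (m + 1)) ^ n₀)
  refine ⟨c, hc, C, hC, fun p _ A _ _ _ L hL K hK hKd V hV hVm Q hQ T hT => ?_⟩
  obtain ⟨h1, h1r⟩ := V1_fin K V d m hKd hVm
  obtain ⟨h2, h2r⟩ := finrank_pow_le (V1 K V) (d * (m + 1)) h1r n₀
  refine ⟨_, h p A L hL (V1 K V ^ n₀) h2 h2r T hT, fun n hn hnB => ?_⟩
  apply hQ
  intro hrel
  apply hnB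
  exact Finset.mem_filter.2 ⟨Fintype.mem_piFinset.2 fun i => Finset.mem_Icc.2 (hn i), hrel⟩

/-- singular matrices -/
theorem zero_of_norel {A : Type} [Field A] [CharZero A] (K : IntermediateField ℚ A) (V : Submodule K A)
    [Module.Finite K V] (hV0 : ZeroProp V) {k m : ℕ} (hm : finrank K V ≤ m) (l : Fin k → A)
    (h : ¬ Rel (m + k + 1) (V1 K V ^ (m + k + 1)) l) :
    finrank K (V ⊔ Submodule.span K (Set.range l) : Submodule K A) = finrank K V + k ∧
      ZeroProp (V ⊔ Submodule.span K (Set.range l)) := by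
  have hone : (1 : A) ∈ V1 K V := Submodule.mem_sup_right (by simp)
  have hg := extend V hV0 l (fun N hN W Cc hW h0 X => by
    have hND : N ≤ m + k + 1 := by
      rw [Fintype.card_fin] at hN
      omega
    have hP : DPn K W Cc = 0 := by
      by_contra hne
      exact h ⟨DPn K W Cc, hne, (DPn_deg K W Cc).trans hND,
        (DPn_coeff K V W hW Cc).mono hone hND, by rw [DPn_aeval]; exact h0⟩
    rw [← DPn_aeval, hP, map_zero])
  rwa [Fintype.card_fin] at hg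

/-- `2 × 2` matrices -/
theorem good_of_norel {A : Type} [Field A] [CharZero A] (K : IntermediateField ℚ A) (V : Submodule K A)
    [Module.Finite K V] {k : ℕ} (l : Fin k → A) (h : ¬ Rel 2 (V1 K V ^ 2) l) : Good V l := by
  refine good_of V l fun w c hw h0 X => ?_
  have hP : DP K w c = 0 := by
    by_contra hne
    exact h ⟨DP K w c, hne, DP_deg K w c, fun s => by rw [pow_two]; exact DP_coeff K V w hw c s, by
      rw [DP_aeval]; exact h0⟩
  rw [← DP_aeval, hP, map_zero]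

/-- **Tuples, singular matrices.** -/
theorem tuples_zero (k d m : ℕ) : ∃ c : ℝ, 0 < c ∧ ∃ C : ℝ, 0 ≤ C ∧ ∀ (p : ℕ) [Fact p.Prime] (A : Type)
    [NormedField A] [NormedAlgebra ℚ_[p] A] [CharZero A] (L : A → A), Iw p L →
    ∀ K : IntermediateField ℚ A, FiniteDimensional ℚ K → finrank ℚ K ≤ d →
    ∀ V : Submodule K A, Module.Finite K V → finrank K V ≤ m → ZeroProp V → ∀ T : ℕ, 1 ≤ T →
      ∃ B : Finset (Fin k → ℕ), (B.card : ℝ) ≤ C * p * (T : ℝ) ^ ((k : ℝ) - c) ∧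
        ∀ n : Fin k → ℕ, (∀ i, 1 ≤ n i ∧ n i ≤ T) → n ∉ B →
        finrank K (V ⊔ Submodule.span K (Set.range fun i => L (n i : A)) : Submodule K A) = finrank K V + k ∧
          ZeroProp (V ⊔ Submodule.span K (Set.range fun i => L (n i : A))) := by
  obtain ⟨c, hc, C, hC, h⟩ := tuples_of k d m (m + k + 1)
  exact ⟨c, hc, C, hC, fun p _ A _ _ _ L hL K hK hKd V hV hVm hV0 T hT => h p A L hL K hK hKd V hV hVm (fun l =>
    finrank K (V ⊔ Submodule.span K (Set.range l) : Submodule K A) = finrank K V + k ∧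
      ZeroProp (V ⊔ Submodule.span K (Set.range l))) (fun l hl => zero_of_norel K V hV0 hVm l hl) T hT⟩

/-- **Tuples, four exponentials.** -/
theorem tuples_good (k d m : ℕ) : ∃ c : ℝ, 0 < c ∧ ∃ C : ℝ, 0 ≤ C ∧ ∀ (p : ℕ) [Fact p.Prime] (A : Type)
    [NormedField A] [NormedAlgebra ℚ_[p] A] [CharZero A] (L : A → A), Iw p L →
    ∀ K : IntermediateField ℚ A, FiniteDimensional ℚ K → finrank ℚ K ≤ d →
    ∀ V : Submodule K A, Module.Finite K V → finrank K V ≤ m → ∀ T : ℕ, 1 ≤ T →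
      ∃ B : Finset (Fin k → ℕ), (B.card : ℝ) ≤ C * p * (T : ℝ) ^ ((k : ℝ) - c) ∧
        ∀ n : Fin k → ℕ, (∀ i, 1 ≤ n i ∧ n i ≤ T) → n ∉ B → Good V (fun i => L (n i : A)) := by
  obtain ⟨c, hc, C, hC, h⟩ := tuples_of k d m 2
  exact ⟨c, hc, C, hC, fun p _ A _ _ _ L hL K hK hKd V hV hVm T hT =>
    h p A L hL K hK hKd V hV hVm (fun l => Good V l) (fun l hl => good_of_norel K V l hl) T hT⟩

/-- **Windows, singular matrices.** -/
theorem window_zero (r d m : ℕ) : ∃ E : ℕ, ∀ (p : ℕ) [Fact p.Prime] (A : Type) [NormedField A]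
    [NormedAlgebra ℚ_[p] A] [CharZero A] (L : A → A), Iw p L → ∀ H e v : ℕ, (H + 2) ^ E ≤ p ^ e → ¬ p ∣ v →
    v ≤ p ^ e → ∀ K : IntermediateField ℚ A, FiniteDimensional ℚ K → finrank ℚ K ≤ d →
    ∀ V : Submodule K A, Module.Finite K V → finrank K V ≤ m → ZeroProp V →
    ∃ S : Finset ℕ, S.card ≤ m + 1 ∧ ∀ g : Fin r → ℕ, Function.Injective g → (∀ i, 1 ≤ g i ∧ g i ≤ H ∧ g i ∉ S) →
      finrank K (V ⊔ Submodule.span K (Set.range fun i => L ((v + g i * p ^ e : ℕ) : A)) : Submodule K A) =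
          finrank K V + r ∧
        ZeroProp (V ⊔ Submodule.span K (Set.range fun i => L ((v + g i * p ^ e : ℕ) : A))) := by
  obtain ⟨E, hE⟩ := pwindow r d (m + r + 1) m
  refine ⟨E, fun p _ A _ _ _ L hL H e v hHe hv hve K hK hKd V hV hVm hV0 => ?_⟩
  obtain ⟨w, hw⟩ := exists_span V m hVm
  obtain ⟨S, hS, h⟩ := hE p A L hL H e v hHe hv hve K hK hKd w
  refine ⟨S, hS, fun g hinj hg => ?_⟩
  have hg2 := extend V hV0 (fun i => L ((v + g i * p ^ e : ℕ) : A)) fun N hN w0 c hw0 h0 X => by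
    rw [Fintype.card_fin] at hN
    have h2 : ∀ i j, ∃ a : Fin m → K, ∑ q, a q • w q = w0 i j := fun i j =>
      (Submodule.mem_span_range_iff_exists_fun K).1 (hw (hw0 i j))
    choose a ha using h2
    have e0 : w0 = fun i j => ∑ q, a i j q • w q := by
      funext i j
      exact (ha i j).symm
    rw [e0] at h0 ⊢
    apply DWn_aeval2
    refine h g hinj hg (DWn a c) ((DWn_deg a c).trans (by omega)) ?_
    rw [DWn_aeval]
    exact h0
  rwa [Fintype.card_fin] at hg2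

/-- **Windows, four exponentials.** -/
theorem window_good (r d m : ℕ) : ∃ E : ℕ, ∀ (p : ℕ) [Fact p.Prime] (A : Type) [NormedField A]
    [NormedAlgebra ℚ_[p] A] [CharZero A] (L : A → A), Iw p L → ∀ H e v : ℕ, (H + 2) ^ E ≤ p ^ e → ¬ p ∣ v →
    v ≤ p ^ e → ∀ K : IntermediateField ℚ A, FiniteDimensional ℚ K → finrank ℚ K ≤ d →
    ∀ V : Submodule K A, Module.Finite K V → finrank K V ≤ m →
    ∃ S : Finset ℕ, S.card ≤ m + 1 ∧ ∀ g : Fin r → ℕ, Function.Injective g → (∀ i, 1 ≤ g i ∧ g i ≤ H ∧ g i ∉ S) →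
      Good V (fun i => L ((v + g i * p ^ e : ℕ) : A)) := by
  obtain ⟨E, hE⟩ := pwindow r d 2 m
  refine ⟨E, fun p _ A _ _ _ L hL H e v hHe hv hve K hK hKd V hV hVm => ?_⟩
  obtain ⟨w, hw⟩ := exists_span V m hVm
  obtain ⟨S, hS, h⟩ := hE p A L hL H e v hHe hv hve K hK hKd w
  refine ⟨S, hS, fun g hinj hg => ?_⟩
  refine good_of V _ fun w0 c hw0 h0 X => ?_
  have h2 : ∀ i j, ∃ a : Fin m → K, ∑ q, a q • w q = w0 i j := fun i j =>
    (Submodule.mem_span_range_iff_exists_fun K).1 (hw (hw0 i j))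
  choose a ha using h2
  have e0 : w0 = fun i j => ∑ q, a i j q • w q := by
    funext i j
    exact (ha i j).symm
  rw [e0] at h0 ⊢
  apply DW_aeval2
  refine h g hinj hg (DW a c) (DW_deg a c) ?_
  rw [DW_aeval]
  exact h0

end Pool.Agent.Y921.PX
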