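import Pool.Agent.Y921.PX.Pol
import Pool.Agent.Y921.PW.Iwa

/-!
# `p`-adic logarithms of integers: windows in residue classes, tuples
-/

set_option autoImplicit false

open Module

namespace Pool.Agent.Y921.PX

open Pool.Agent.Y916.Om Pool.Agent.Y921.PW

/-- the exponents -/
noncomputable def Ev (N Δ : ℕ) : ℕ := (logs_p N Δ).choose + 1

section

variable {p : ℕ} [Fact p.Prime] {A : Type} [NormedField A] [NormedAlgebra ℚ_[p] A] [CharZero A] {L : A → A}

lemma aeval_map {κ : Type} (x : κ → ℚ_[p]) (P : MvPolynomial κ ℚ) :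
    MvPolynomial.aeval (fun i => algebraMap ℚ_[p] A (x i)) P = algebraMap ℚ_[p] A (MvPolynomial.aeval x P) := by
  have h : ((algebraMap ℚ_[p] A).toRatAlgHom).comp (MvPolynomial.aeval x : MvPolynomial κ ℚ →ₐ[ℚ] ℚ_[p]) =
      (MvPolynomial.aeval (fun i => algebraMap ℚ_[p] A (x i)) : MvPolynomial κ ℚ →ₐ[ℚ] A) := by
    refine MvPolynomial.algHom_ext fun i => ?_
    rw [AlgHom.comp_apply, MvPolynomial.aeval_X, MvPolynomial.aeval_X]
    rfl
  exact (DFunLike.congr_fun h P).symm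

theorem inpP (hL : Iw p L) :
    InpP Ev p (fun e v g (_ : Unit) => L ((v + g * p ^ e : ℕ) : A) - L (v : A)) := by
  intro N Δ H e v hHe hv hve g hinj hg P hP h0
  have he : 1 ≤ e := by
    by_contra he
    have he0 : e = 0 := by omega
    rw [he0, pow_zero] at hHe
    have h1 : (H + 2) ^ 1 ≤ (H + 2) ^ Ev N Δ := Nat.pow_le_pow_right (by omega) (by unfold Ev; omega)
    rw [pow_one] at h1
    omega
  set e' : Fin N × Unit ≃ Fin N := Equiv.prodPUnit (Fin N) with he'
  have h1 := (logs_p N Δ).choose_spec H p e v ((Nat.pow_le_pow_right (by omega) (Nat.le_succ _)).trans hHe) hv hve g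
    hinj hg (MvPolynomial.rename e' P) ((MvPolynomial.totalDegree_rename_le _ _).trans hP) (by
      rw [MvPolynomial.aeval_rename]
      apply (algebraMap ℚ_[p] A).injective
      rw [map_zero, ← aeval_map, ← h0]
      congr 1
      refine MvPolynomial.algHom_ext fun i => ?_
      rw [MvPolynomial.aeval_X, MvPolynomial.aeval_X]
      change _ = L ((v + g i.1 * p ^ e : ℕ) : A) - L (v : A)
      rw [hL.shift he hv, add_sub_cancel_left]
      rfl)
  exact MvPolynomial.rename_injective e' e'.injective (h1.trans (map_zero _).symm)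

omit [Fact p.Prime] [NormedAlgebra ℚ_[p] A] in
theorem linkP : LinkP p 1 (fun e v g (_ : Unit) => L ((v + g * p ^ e : ℕ) : A) - L (v : A))
    (fun n (_ : Unit) => L (n : A)) := by
  intro e v _ _ _
  refine ⟨fun _ => L (v : A), fun g _ s => ?_⟩
  rw [sub_sub_cancel]
  exact Submodule.subset_span (Set.mem_insert_of_mem _ ⟨0, rfl⟩)

end

/-- an elementary bound -/
lemma log_bound (k : ℕ) {c : ℝ} (hc : 0 < c) : ∃ M : ℝ, 0 ≤ M ∧ ∀ T : ℕ, 1 ≤ T →
    ((Nat.log 2 T + 1 : ℕ) : ℝ) ^ k ≤ M * (T : ℝ) ^ c := by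
  set ε : ℝ := min 1 (c / (k + 1)) with hε
  have hk : (0 : ℝ) < (k : ℝ) + 1 := by positivity
  have hε0 : 0 < ε := lt_min one_pos (by positivity)
  have hl2 : 0 < Real.log 2 := Real.log_pos (by norm_num)
  have hl21 : Real.log 2 ≤ 1 := by
    have := Real.log_two_lt_d9
    linarith
  refine ⟨(1 / (ε * Real.log 2)) ^ k, by positivity, fun T hT => ?_⟩
  have hT1 : (1 : ℝ) ≤ T := by exact_mod_cast hT
  have hT0 : (0 : ℝ) < T := by linarith
  have h1 : ((Nat.log 2 T + 1 : ℕ) : ℝ) ≤ 1 / (ε * Real.log 2) * (T : ℝ) ^ ε := by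
    have h2 : ((2 ^ Nat.log 2 T : ℕ) : ℝ) ≤ T := by exact_mod_cast Nat.pow_log_le_self 2 (by omega)
    have h3 : (Nat.log 2 T : ℝ) * Real.log 2 ≤ Real.log T := by
      have h4 := Real.log_le_log (by positivity) h2
      push_cast at h4
      rwa [Real.log_pow] at h4
    have h5 : (T : ℝ) ^ ε = Real.exp (Real.log T * ε) := Real.rpow_def_of_pos hT0 _
    have h6 : Real.log T * ε + 1 ≤ (T : ℝ) ^ ε := by
      rw [h5]
      exact Real.add_one_le_exp _
    have h7 : (Nat.log 2 T : ℝ) * Real.log 2 * ε ≤ Real.log T * ε := mul_le_mul_of_nonneg_right h3 hε0.le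
    rw [one_div, ← div_eq_inv_mul, le_div_iff₀ (by positivity)]
    push_cast
    have h8 : ε * Real.log 2 ≤ 1 := by
      have := min_le_left 1 (c / ((k : ℝ) + 1))
      rw [← hε] at this
      nlinarith
    nlinarith
  calc ((Nat.log 2 T + 1 : ℕ) : ℝ) ^ k ≤ (1 / (ε * Real.log 2) * (T : ℝ) ^ ε) ^ k :=
        pow_le_pow_left₀ (by positivity) h1 k
    _ = (1 / (ε * Real.log 2)) ^ k * (T : ℝ) ^ (ε * k) := by
        rw [mul_pow, Real.rpow_mul hT0.le, Real.rpow_natCast]
    _ ≤ (1 / (ε * Real.log 2)) ^ k * (T : ℝ) ^ c := by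
        refine mul_le_mul_of_nonneg_left (Real.rpow_le_rpow_of_exponent_le hT1 ?_) (by positivity)
        have h2 : ε ≤ c / (k + 1) := min_le_right _ _
        calc ε * k ≤ c / (k + 1) * k := mul_le_mul_of_nonneg_right h2 (Nat.cast_nonneg k)
          _ ≤ c / (k + 1) * (k + 1) := mul_le_mul_of_nonneg_left (by linarith) (by positivity)
          _ = c := by field_simp

open Classical in
/-- **Tuples.** -/
theorem ptup (k δ D : ℕ) : ∃ c : ℝ, 0 < c ∧ ∃ C : ℝ, 0 ≤ C ∧ ∀ (p : ℕ) [Fact p.Prime] (A : Type) [NormedField A]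
    [NormedAlgebra ℚ_[p] A] [CharZero A] (L : A → A), Iw p L → ∀ V : Submodule ℚ A, Module.Finite ℚ V →
    finrank ℚ V ≤ D → ∀ T : ℕ, 1 ≤ T →
      (((Fintype.piFinset fun _ : Fin k => Finset.Icc 1 T).filter fun n =>
        Rel δ V (fun i => L (n i : A))).card : ℝ) ≤ C * p * (T : ℝ) ^ ((k : ℝ) - c) := by
  obtain ⟨c, hc, C, hC, h⟩ := ptuples Ev (σ := Unit) 1 δ k D
  obtain ⟨M, hM, hlog⟩ := log_bound k (c := c / 2) (by positivity)
  refine ⟨c / 2, by positivity, C * M, by positivity, fun p _ A _ _ _ L hL V hV hVD T hT => ?_⟩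
  have hp := (Fact.out : p.Prime)
  have h1 := h A p hp.two_le _ _ (inpP hL) (linkP (L := L)) V hV hVD T hT
  set B' := (Fintype.piFinset fun _ : Fin k => (Finset.Icc 1 T).filter fun n => ¬ p ∣ n).filter fun t =>
        Rel δ V (tup (fun n (_ : Unit) => L (n : A)) t) with hB'
  set B := (Fintype.piFinset fun _ : Fin k => Finset.Icc 1 T).filter fun n => Rel δ V (fun i => L (n i : A)) with hB
  set a : ℕ := Nat.log 2 T with ha
  have hsub : B ⊆ (B' ×ˢ (Fintype.piFinset fun _ : Fin k => Finset.range (a + 1))).image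
      fun q i => p ^ q.2 i * q.1 i := by
    intro n hn
    obtain ⟨hn1, hn2⟩ := Finset.mem_filter.1 hn
    rw [Fintype.mem_piFinset] at hn1
    have hn0 : ∀ i, n i ≠ 0 := fun i => by
      have := (Finset.mem_Icc.1 (hn1 i)).1
      omega
    have hL' : ∀ i, L (n i : A) = L ((ordCompl[p] (n i) : ℕ) : A) := by
      intro i
      conv_lhs => rw [← Nat.ordProj_mul_ordCompl_eq_self (n i) p]
      exact hL.pow_p _ (Nat.ordCompl_pos p (hn0 i)).ne'
    refine Finset.mem_image.2 ⟨(fun i => ordCompl[p] (n i), fun i => (n i).factorization p), ?_, ?_⟩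
    · refine Finset.mem_product.2 ⟨Finset.mem_filter.2 ⟨?_, ?_⟩, ?_⟩
      · rw [Fintype.mem_piFinset]
        intro i
        refine Finset.mem_filter.2 ⟨Finset.mem_Icc.2 ⟨Nat.ordCompl_pos p (hn0 i), ?_⟩, Nat.not_dvd_ordCompl hp (hn0 i)⟩
        exact (Nat.ordCompl_le _ _).trans (Finset.mem_Icc.1 (hn1 i)).2
      · have h2 : (fun i => L (n i : A)) = fun i => L ((ordCompl[p] (n i) : ℕ) : A) := funext hL'
        rw [h2] at hn2
        exact hn2.reindex (Equiv.prodPUnit (Fin k))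
      · rw [Fintype.mem_piFinset]
        intro i
        rw [Finset.mem_range, Nat.lt_succ_iff]
        refine Nat.le_log_of_pow_le (by norm_num) ?_
        calc 2 ^ (n i).factorization p ≤ p ^ (n i).factorization p := Nat.pow_le_pow_left hp.two_le _
          _ ≤ n i := Nat.ordProj_le p (hn0 i)
          _ ≤ T := (Finset.mem_Icc.1 (hn1 i)).2
    · funext i
      exact Nat.ordProj_mul_ordCompl_eq_self (n i) p
  have hcard : B.card ≤ B'.card * (a + 1) ^ k := by
    refine (Finset.card_le_card hsub).trans (Finset.card_image_le.trans ?_)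
    rw [Finset.card_product, Fintype.card_piFinset]
    simp
  have hT1 : (1 : ℝ) ≤ T := by exact_mod_cast hT
  have hT0 : (0 : ℝ) < T := by linarith
  calc (B.card : ℝ) ≤ (B'.card : ℝ) * ((a + 1 : ℕ) : ℝ) ^ k := by exact_mod_cast hcard
    _ ≤ (C * p * (T : ℝ) ^ ((k : ℝ) - c)) * (M * (T : ℝ) ^ (c / 2)) :=
        mul_le_mul h1 (hlog T hT) (by positivity) (by positivity)
    _ = C * M * p * (T : ℝ) ^ ((k : ℝ) - c / 2) := by
        have : (k : ℝ) - c / 2 = ((k : ℝ) - c) + c / 2 := by ring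
        rw [this, Real.rpow_add hT0]
        ring

/-- **Windows.** -/
theorem pwindow (r d δ τ : ℕ) : ∃ E : ℕ, ∀ (p : ℕ) [Fact p.Prime] (A : Type) [NormedField A]
    [NormedAlgebra ℚ_[p] A] [CharZero A] (L : A → A), Iw p L → ∀ H e v : ℕ, (H + 2) ^ E ≤ p ^ e → ¬ p ∣ v →
    v ≤ p ^ e → ∀ K : IntermediateField ℚ A, FiniteDimensional ℚ K → finrank ℚ K ≤ d → ∀ w : Fin τ → A,
    ∃ S : Finset ℕ, S.card ≤ τ + 1 ∧ ∀ g : Fin r → ℕ, Function.Injective g → (∀ i, 1 ≤ g i ∧ g i ≤ H ∧ g i ∉ S) →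
      ∀ P : MvPolynomial (Fin τ ⊕ Fin r) K, P.totalDegree ≤ δ →
      MvPolynomial.aeval (Sum.elim w fun i => L ((v + g i * p ^ e : ℕ) : A)) P = 0 →
      MvPolynomial.aeval (Sum.elim (fun j => MvPolynomial.C (w j)) MvPolynomial.X) P
        = (0 : MvPolynomial (Fin r) A) := by
  obtain ⟨E, hE⟩ := aw Ev (σ := Unit) r d δ (τ + 1)
  refine ⟨E, fun p _ A _ _ _ L hL H e v hHe hv hve K hK hKd w => ?_⟩
  set w' : Fin (τ + 1) → A := Fin.cons (L (v : A)) w with hw'
  obtain ⟨S, hS, h⟩ := hE A Unit (fun _ => p ^ e) (fun _ g (_ : Unit) => L ((v + g * p ^ e : ℕ) : A) - L (v : A))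
    (fun N Δ H' _ h1 g hg hgb => inpP hL N Δ H' e v h1 hv hve g hg hgb) H () hHe K hK hKd w'
  refine ⟨S, hS, fun g hinj hg P hP h0 => ?_⟩
  set f : Fin τ ⊕ Fin r → Fin (τ + 1) ⊕ Fin r × Unit := Sum.map Fin.succ fun i => (i, ()) with hf
  have h1 := h g hinj hg (fun q => L ((v + g q.1 * p ^ e : ℕ) : A)) (fun q => ⟨1, one_ne_zero, by
      have h2 : L ((v + g q.1 * p ^ e : ℕ) : A) - ((1 : K) : A) * (L ((v + g q.1 * p ^ e : ℕ) : A) - L (v : A)) =
          L (v : A) := by
        rw [OneMemClass.coe_one, one_mul, sub_sub_cancel]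
      rw [h2]
      exact Submodule.subset_span (Set.mem_insert_of_mem _ ⟨0, rfl⟩)⟩)
    (MvPolynomial.rename f P) ((MvPolynomial.totalDegree_rename_le _ _).trans hP) (by
      rw [MvPolynomial.aeval_rename, ← h0]
      congr 1
      congr 1
      funext i
      rcases i with j | i
      · simp [hf, hw']
      · simp [hf])
  rw [MvPolynomial.aeval_rename] at h1
  apply MvPolynomial.rename_injective (Equiv.prodPUnit (Fin r)).symm (Equiv.prodPUnit (Fin r)).symm.injective
  rw [map_zero, ← h1]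
  have h3 : (((MvPolynomial.rename (Equiv.prodPUnit (Fin r)).symm : MvPolynomial (Fin r) A →ₐ[A]
      MvPolynomial (Fin r × Unit) A).restrictScalars K).comp
      (MvPolynomial.aeval (Sum.elim (fun j => MvPolynomial.C (w j)) MvPolynomial.X) :
        MvPolynomial (Fin τ ⊕ Fin r) K →ₐ[K] MvPolynomial (Fin r) A)) =
      MvPolynomial.aeval ((Sum.elim (fun j => MvPolynomial.C (w' j)) MvPolynomial.X : Fin (τ + 1) ⊕ Fin r × Unit →
        MvPolynomial (Fin r × Unit) A) ∘ f) := by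
    refine MvPolynomial.algHom_ext fun i => ?_
    rcases i with j | i
    · simp [hf, hw']
    · simp [hf]
  exact DFunLike.congr_fun h3 P

end Pool.Agent.Y921.PX
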