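import Pool.Agent.Y921.FE.Core
import Pool.Agent.Y921.SR.Pencil
import Pool.Agent.Y916.Om.PT

/-!
# Determinants as polynomials, over arbitrary fields of characteristic `0`
-/

set_option autoImplicit false

open Module

namespace Pool.Agent.Y921.PX

open Pool.Agent.Y921.FE (D)
open Pool.Agent.Y921.SR (Mt)

section Two

variable {Ω : Type} [Field Ω] [CharZero Ω] {σ : Type*} [Fintype σ]

theorem finrank_mul_le (M N : Submodule ℚ Ω) [Module.Finite ℚ M] [Module.Finite ℚ N] :
    Module.Finite ℚ (M * N : Submodule ℚ Ω) ∧ finrank ℚ (M * N : Submodule ℚ Ω) ≤ finrank ℚ M * finrank ℚ N := by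
  rw [← Submodule.mulMap_range, ← Module.finrank_tensorProduct (R := ℚ)]
  exact ⟨inferInstance, LinearMap.finrank_range_le _⟩

/-- the space `K + V` over `ℚ` -/
noncomputable def V1 (K : IntermediateField ℚ Ω) (V : Submodule K Ω) : Submodule ℚ Ω :=
  V.restrictScalars ℚ ⊔ Subalgebra.toSubmodule K.toSubalgebra

theorem V1_fin (K : IntermediateField ℚ Ω) [FiniteDimensional ℚ K] (V : Submodule K Ω) [Module.Finite K V] (d m : ℕ)
    (hd : finrank ℚ K ≤ d) (hm : finrank K V ≤ m) : Module.Finite ℚ (V1 K V) ∧ finrank ℚ (V1 K V) ≤ d * (m + 1) := by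
  have hV : Module.Finite ℚ (V.restrictScalars ℚ : Submodule ℚ Ω) := by
    have : Module.Finite ℚ V := Module.Finite.trans K V
    exact this
  have hK : Module.Finite ℚ (Subalgebra.toSubmodule K.toSubalgebra : Submodule ℚ Ω) := by
    have : Module.Finite ℚ K := inferInstance
    exact this
  have h1 : finrank ℚ (V.restrictScalars ℚ : Submodule ℚ Ω) = finrank ℚ K * finrank K V := by
    have := Module.finrank_mul_finrank ℚ K V
    exact this.symm
  have h2 : finrank ℚ (Subalgebra.toSubmodule K.toSubalgebra : Submodule ℚ Ω) = finrank ℚ K := rfl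
  refine ⟨by unfold V1; infer_instance, ?_⟩
  calc finrank ℚ (V1 K V) ≤ finrank ℚ (V.restrictScalars ℚ : Submodule ℚ Ω) +
        finrank ℚ (Subalgebra.toSubmodule K.toSubalgebra : Submodule ℚ Ω) := Submodule.finrank_add_le_finrank_add_finrank _ _
    _ = finrank ℚ K * finrank K V + finrank ℚ K := by rw [h1, h2]
    _ ≤ d * m + d := Nat.add_le_add (Nat.mul_le_mul hd hm) hd
    _ = d * (m + 1) := by ring

open MvPolynomial in
/-- a linear form -/
noncomputable def Lf (K : IntermediateField ℚ Ω) (w : Ω) (c : σ → K) : MvPolynomial σ Ω :=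
  C w + ∑ p, C (c p : Ω) * X p

open MvPolynomial in
theorem Lf_deg (K : IntermediateField ℚ Ω) (w : Ω) (c : σ → K) : (Lf K w c).totalDegree ≤ 1 := by
  unfold Lf
  refine (totalDegree_add _ _).trans (max_le (by simp) ?_)
  refine totalDegree_finsetSum_le fun p _ => ?_
  refine (totalDegree_mul _ _).trans ?_
  simp

open MvPolynomial in
theorem Lf_coeff (K : IntermediateField ℚ Ω) (V : Submodule K Ω) (w : Ω) (hw : w ∈ V) (c : σ → K) (s : σ →₀ ℕ) :
    (Lf K w c).coeff s ∈ V1 K V := by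
  classical
  have hV : ∀ x ∈ V, x ∈ V1 K V := fun x hx => Submodule.mem_sup_left (by simpa using hx)
  have hK : ∀ x : K, (x : Ω) ∈ V1 K V := fun x => Submodule.mem_sup_right (by simp)
  unfold Lf
  rw [coeff_add, coeff_sum]
  refine Submodule.add_mem _ ?_ (Submodule.sum_mem _ fun p _ => ?_)
  · rw [coeff_C]
    split_ifs
    · exact hV w hw
    · exact Submodule.zero_mem _
  · rw [coeff_C_mul, coeff_X']
    split_ifs
    · rw [mul_one]; exact hK _
    · rw [mul_zero]; exact Submodule.zero_mem _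

open MvPolynomial in
theorem Lf_aeval (K : IntermediateField ℚ Ω) (w : Ω) (c : σ → K) (x : σ → Ω) :
    aeval x (Lf K w c) = w + ∑ p, c p • x p := by
  simp [Lf, Algebra.smul_def]

/-- the determinant polynomial -/
noncomputable def DP (K : IntermediateField ℚ Ω) (w : Fin 2 → Fin 2 → Ω) (c : Fin 2 → Fin 2 → σ → K) : MvPolynomial σ Ω :=
  Lf K (w 0 0) (c 0 0) * Lf K (w 1 1) (c 1 1) - Lf K (w 0 1) (c 0 1) * Lf K (w 1 0) (c 1 0)

theorem DP_aeval (K : IntermediateField ℚ Ω) (w : Fin 2 → Fin 2 → Ω) (c : Fin 2 → Fin 2 → σ → K) (x : σ → Ω) :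
    MvPolynomial.aeval x (DP K w c) = D w c x := by
  simp only [DP, D, map_sub, map_mul, Lf_aeval]

open MvPolynomial in
theorem DP_deg (K : IntermediateField ℚ Ω) (w : Fin 2 → Fin 2 → Ω) (c : Fin 2 → Fin 2 → σ → K) :
    (DP K w c).totalDegree ≤ 2 := by
  unfold DP
  refine (totalDegree_sub _ _).trans (max_le ?_ ?_)
  · exact (totalDegree_mul _ _).trans (Nat.add_le_add (Lf_deg _ _ _) (Lf_deg _ _ _))
  · exact (totalDegree_mul _ _).trans (Nat.add_le_add (Lf_deg _ _ _) (Lf_deg _ _ _))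

open MvPolynomial in
theorem DP_coeff (K : IntermediateField ℚ Ω) (V : Submodule K Ω) (w : Fin 2 → Fin 2 → Ω) (hw : ∀ i j, w i j ∈ V)
    (c : Fin 2 → Fin 2 → σ → K) (s : σ →₀ ℕ) : (DP K w c).coeff s ∈ V1 K V * V1 K V := by
  classical
  have h : ∀ i j i' j', (Lf K (w i j) (c i j) * Lf K (w i' j') (c i' j')).coeff s ∈ V1 K V * V1 K V := by
    intro i j i' j'
    rw [coeff_mul]
    exact Submodule.sum_mem _ fun p _ => Submodule.mul_mem_mul (Lf_coeff K V _ (hw i j) _ _) (Lf_coeff K V _ (hw i' j') _ _)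
  unfold DP
  rw [coeff_sub]
  exact Submodule.sub_mem _ (h _ _ _ _) (h _ _ _ _)

end Two

section Poly

variable {Ω : Type} [Field Ω] [CharZero Ω] {K : Type*} [Field K] [Algebra K Ω] {τ r : ℕ}

open MvPolynomial in
/-- a linear form in the `w` and the `l` -/
noncomputable def Lw (a : Fin τ → K) (c : Fin r → K) : MvPolynomial (Fin τ ⊕ Fin r) K :=
  ∑ q, C (a q) * X (Sum.inl q) + ∑ p, C (c p) * X (Sum.inr p)

open MvPolynomial in
theorem Lw_deg (a : Fin τ → K) (c : Fin r → K) : (Lw a c).totalDegree ≤ 1 := by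
  unfold Lw
  refine (totalDegree_add _ _).trans (max_le ?_ ?_)
  · refine totalDegree_finsetSum_le fun p _ => ?_
    refine (totalDegree_mul _ _).trans ?_
    simp
  · refine totalDegree_finsetSum_le fun p _ => ?_
    refine (totalDegree_mul _ _).trans ?_
    simp

open MvPolynomial in
theorem Lw_aeval (a : Fin τ → K) (c : Fin r → K) (w : Fin τ → Ω) (l : Fin r → Ω) :
    aeval (Sum.elim w l) (Lw a c) = (∑ q, a q • w q) + ∑ p, c p • l p := by
  simp [Lw, Algebra.smul_def]

open MvPolynomial in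
theorem Lw_aeval2 (a : Fin τ → K) (c : Fin r → K) (w : Fin τ → Ω) (x : Fin r → Ω) :
    aeval x (aeval (Sum.elim (fun j => (C (w j) : MvPolynomial (Fin r) Ω)) X) (Lw a c)) =
      (∑ q, a q • w q) + ∑ p, c p • x p := by
  simp only [Lw, map_add, map_sum, map_mul, aeval_X, Sum.elim_inl, Sum.elim_inr, algHom_C, Algebra.smul_def]
  simp only [aeval_C, Algebra.algebraMap_self, RingHom.id_apply]
  congr 1
  · refine Finset.sum_congr rfl fun q _ => ?_
    rw [MvPolynomial.algebraMap_apply, aeval_C]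
    rfl
  · refine Finset.sum_congr rfl fun q _ => ?_
    rw [MvPolynomial.algebraMap_apply, aeval_C]
    rfl

/-- the determinant polynomial -/
noncomputable def DW (a : Fin 2 → Fin 2 → Fin τ → K) (c : Fin 2 → Fin 2 → Fin r → K) :
    MvPolynomial (Fin τ ⊕ Fin r) K :=
  Lw (a 0 0) (c 0 0) * Lw (a 1 1) (c 1 1) - Lw (a 0 1) (c 0 1) * Lw (a 1 0) (c 1 0)

open MvPolynomial in
theorem DW_deg (a : Fin 2 → Fin 2 → Fin τ → K) (c : Fin 2 → Fin 2 → Fin r → K) : (DW a c).totalDegree ≤ 2 := by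
  unfold DW
  refine (totalDegree_sub _ _).trans (max_le ?_ ?_)
  · exact (totalDegree_mul _ _).trans (Nat.add_le_add (Lw_deg _ _) (Lw_deg _ _))
  · exact (totalDegree_mul _ _).trans (Nat.add_le_add (Lw_deg _ _) (Lw_deg _ _))

theorem DW_aeval (a : Fin 2 → Fin 2 → Fin τ → K) (c : Fin 2 → Fin 2 → Fin r → K) (w : Fin τ → Ω) (l : Fin r → Ω) :
    MvPolynomial.aeval (Sum.elim w l) (DW a c) = D (fun i j => ∑ q, a i j q • w q) c l := by
  simp only [DW, D, map_sub, map_mul, Lw_aeval]

theorem DW_aeval2 (a : Fin 2 → Fin 2 → Fin τ → K) (c : Fin 2 → Fin 2 → Fin r → K) (w : Fin τ → Ω) (x : Fin r → Ω)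
    (h : MvPolynomial.aeval (Sum.elim (fun j => (MvPolynomial.C (w j) : MvPolynomial (Fin r) Ω)) MvPolynomial.X) (DW a c)
      = 0) : D (fun i j => ∑ q, a i j q • w q) c x = 0 := by
  have := congrArg (MvPolynomial.aeval x) h
  simp only [DW, map_sub, map_mul, Lw_aeval2, map_zero] at this
  exact this

end Poly


open MvPolynomial

section Gen

variable {R : Type*} [CommRing R] {σ : Type*}

/-- the degree of a determinant of linear forms -/
theorem det_deg {n : ℕ} (M : Matrix (Fin n) (Fin n) (MvPolynomial σ R)) (h : ∀ i j, (M i j).totalDegree ≤ 1) :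
    M.det.totalDegree ≤ n := by
  rw [Matrix.det_apply]
  refine totalDegree_finsetSum_le fun τ _ => ?_
  have h1 : (∏ i, M (τ i) i).totalDegree ≤ n := by
    refine (totalDegree_finset_prod _ _).trans ?_
    refine (Finset.sum_le_card_nsmul _ _ 1 fun i _ => h _ _).trans ?_
    simp
  rcases Int.units_eq_one_or (Equiv.Perm.sign τ) with h2 | h2
  · rw [h2, one_smul]; exact h1
  · rw [h2, Units.neg_smul, one_smul, totalDegree_neg]; exact h1

end Gen

section Tup

variable {Ω : Type} [Field Ω] [CharZero Ω] {σ : Type*}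

/-- all coefficients in the `k`-th power of `E` -/
def CoeffIn (E : Submodule ℚ Ω) (k : ℕ) (f : MvPolynomial σ Ω) : Prop := ∀ s, f.coeff s ∈ E ^ k

theorem CoeffIn.mul {E : Submodule ℚ Ω} {k l : ℕ} {f g : MvPolynomial σ Ω} (hf : CoeffIn E k f) (hg : CoeffIn E l g) :
    CoeffIn E (k + l) (f * g) := by
  classical
  intro s
  rw [coeff_mul, pow_add]
  exact Submodule.sum_mem _ fun p _ => Submodule.mul_mem_mul (hf _) (hg _)

theorem CoeffIn.prod {E : Submodule ℚ Ω} {ι : Type*} (s : Finset ι) (f : ι → MvPolynomial σ Ω)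
    (hf : ∀ i ∈ s, CoeffIn E 1 (f i)) : CoeffIn E s.card (∏ i ∈ s, f i) := by
  classical
  induction s using Finset.induction_on with
  | empty =>
    intro j
    rw [Finset.card_empty, Finset.prod_empty, pow_zero, coeff_one]
    split_ifs
    · exact Submodule.one_le.1 le_rfl
    · exact Submodule.zero_mem _
  | insert a s ha ih =>
    rw [Finset.card_insert_of_notMem ha, Finset.prod_insert ha, add_comm]
    exact (hf a (Finset.mem_insert_self _ _)).mul (ih (fun i hi => hf i (Finset.mem_insert_of_mem hi)))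

theorem CoeffIn.mono {E : Submodule ℚ Ω} (hE : (1 : Ω) ∈ E) {k l : ℕ} (hkl : k ≤ l) {f : MvPolynomial σ Ω}
    (hf : CoeffIn E k f) : CoeffIn E l f := fun j => pow_le_pow_right' (Submodule.one_le.2 hE) hkl (hf j)

theorem det_coeff {E : Submodule ℚ Ω} {n : ℕ} (M : Matrix (Fin n) (Fin n) (MvPolynomial σ Ω))
    (h : ∀ i j, CoeffIn E 1 (M i j)) : CoeffIn E n M.det := by
  intro k
  rw [Matrix.det_apply, coeff_sum]
  refine Submodule.sum_mem _ fun τ _ => ?_
  have h1 : CoeffIn E n (∏ i, M (τ i) i) := by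
    have := CoeffIn.prod (E := E) (Finset.univ : Finset (Fin n)) (fun i => M (τ i) i) (fun i _ => h _ _)
    rwa [Finset.card_univ, Fintype.card_fin] at this
  rcases Int.units_eq_one_or (Equiv.Perm.sign τ) with h2 | h2
  · rw [h2, one_smul]; exact h1 k
  · rw [h2, Units.neg_smul, one_smul, coeff_neg]; exact Submodule.neg_mem _ (h1 k)

theorem finrank_pow_le (E : Submodule ℚ Ω) [Module.Finite ℚ E] (m : ℕ) (hm : finrank ℚ E ≤ m) (k : ℕ) :
    Module.Finite ℚ (E ^ k : Submodule ℚ Ω) ∧ finrank ℚ (E ^ k : Submodule ℚ Ω) ≤ m ^ k := by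
  induction k with
  | zero =>
    rw [pow_zero, Submodule.one_eq_range]
    constructor
    · infer_instance
    · refine (LinearMap.finrank_range_le _).trans ?_
      simp
  | succ k ih =>
    obtain ⟨h1, h2⟩ := ih
    rw [pow_succ]
    obtain ⟨h3, h4⟩ := finrank_mul_le (E ^ k) E
    exact ⟨h3, h4.trans (by rw [pow_succ]; exact Nat.mul_le_mul h2 hm)⟩

variable [Fintype σ]

/-- the determinant polynomial -/
noncomputable def DPn (K : IntermediateField ℚ Ω) {n : ℕ} (W : Fin n → Fin n → Ω) (C : Fin n → Fin n → σ → K) :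
    MvPolynomial σ Ω := (Matrix.of fun i j => Lf K (W i j) (C i j)).det

theorem DPn_aeval (K : IntermediateField ℚ Ω) {n : ℕ} (W : Fin n → Fin n → Ω) (C : Fin n → Fin n → σ → K) (x : σ → Ω) :
    aeval x (DPn K W C) = (Mt W C x).det := by
  rw [DPn, AlgHom.map_det]
  congr 1
  ext i j
  simp only [AlgHom.mapMatrix_apply, Matrix.map_apply, Matrix.of_apply, Lf_aeval, Mt]

theorem DPn_deg (K : IntermediateField ℚ Ω) {n : ℕ} (W : Fin n → Fin n → Ω) (C : Fin n → Fin n → σ → K) :
    (DPn K W C).totalDegree ≤ n := det_deg _ fun _ _ => Lf_deg _ _ _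

theorem DPn_coeff (K : IntermediateField ℚ Ω) (V : Submodule K Ω) {n : ℕ} (W : Fin n → Fin n → Ω)
    (hW : ∀ i j, W i j ∈ V) (C : Fin n → Fin n → σ → K) : CoeffIn (V1 K V) n (DPn K W C) :=
  det_coeff _ fun i j s => by rw [pow_one]; exact Lf_coeff K V _ (hW i j) _ _

end Tup

section Win

variable {Ω : Type} [Field Ω] [CharZero Ω] {K : Type*} [Field K] [Algebra K Ω] {τ r : ℕ}

/-- the determinant polynomial -/
noncomputable def DWn {n : ℕ} (a : Fin n → Fin n → Fin τ → K) (c : Fin n → Fin n → Fin r → K) :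
    MvPolynomial (Fin τ ⊕ Fin r) K := (Matrix.of fun i j => Lw (a i j) (c i j)).det

theorem DWn_deg {n : ℕ} (a : Fin n → Fin n → Fin τ → K) (c : Fin n → Fin n → Fin r → K) :
    (DWn a c).totalDegree ≤ n := det_deg _ fun _ _ => Lw_deg _ _

theorem DWn_aeval {n : ℕ} (a : Fin n → Fin n → Fin τ → K) (c : Fin n → Fin n → Fin r → K) (w : Fin τ → Ω)
    (l : Fin r → Ω) : aeval (Sum.elim w l) (DWn a c) = (Mt (fun i j => ∑ q, a i j q • w q) c l).det := by
  rw [DWn, AlgHom.map_det]
  congr 1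
  ext i j
  simp only [AlgHom.mapMatrix_apply, Matrix.map_apply, Matrix.of_apply, Lw_aeval, Mt]

theorem DWn_aeval2 {n : ℕ} (a : Fin n → Fin n → Fin τ → K) (c : Fin n → Fin n → Fin r → K) (w : Fin τ → Ω)
    (x : Fin r → Ω)
    (h : aeval (Sum.elim (fun j => (C (w j) : MvPolynomial (Fin r) Ω)) X) (DWn a c) = 0) :
    (Mt (fun i j => ∑ q, a i j q • w q) c x).det = 0 := by
  have h1 := congrArg (aeval x) h
  rw [DWn, AlgHom.map_det, AlgHom.map_det, map_zero] at h1
  rw [← h1]
  congr 1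
  ext i j
  simp only [AlgHom.mapMatrix_apply, Matrix.map_apply, Matrix.of_apply, Lw_aeval2, Mt]

end Win


end Pool.Agent.Y921.PX
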